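import Pool.Agent.helper82.LEQ.Spec

/-!
# Row SPL
-/

set_option autoImplicit false

namespace LEQ

open scoped BigOperators
open QS (Lef EAb)

/-- the elements of the product of two commuting subgroups -/
theorem SPL_mem {G : Type} [Group G] {H₁ H₂ : Subgroup G}
    (hc : ∀ a ∈ H₁, ∀ b ∈ H₂, a * b = b * a) {g : G} (hg : g ∈ H₁ ⊔ H₂) :
    ∃ a ∈ H₁, ∃ b ∈ H₂, a * b = g := by
  let K : Subgroup G :=
    { carrier := {x | ∃ a ∈ H₁, ∃ b ∈ H₂, a * b = x}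
      one_mem' := ⟨1, H₁.one_mem, 1, H₂.one_mem, one_mul 1⟩
      mul_mem' := by
        rintro x y ⟨a, ha, b, hb, rfl⟩ ⟨a', ha', b', hb', rfl⟩
        refine ⟨a * a', H₁.mul_mem ha ha', b * b', H₂.mul_mem hb hb', ?_⟩
        have h := hc a' ha' b hb
        calc a * a' * (b * b') = a * (a' * b) * b' := by simp only [mul_assoc]
          _ = a * (b * a') * b' := by rw [h]
          _ = a * b * (a' * b') := by simp only [mul_assoc]
      inv_mem' := by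
        rintro x ⟨a, ha, b, hb, rfl⟩
        refine ⟨a⁻¹, H₁.inv_mem ha, b⁻¹, H₂.inv_mem hb, ?_⟩
        rw [hc a⁻¹ (H₁.inv_mem ha) b⁻¹ (H₂.inv_mem hb), mul_inv_rev] }
  have h1 : H₁ ≤ K := fun a ha => ⟨a, ha, 1, H₂.one_mem, mul_one a⟩
  have h2 : H₂ ≤ K := fun b hb => ⟨1, H₁.one_mem, b, hb, one_mul b⟩
  exact (sup_le h1 h2) hg

/-- **Row SPL.** -/
theorem SPL (hPRO : PRO_stmt) (hWEB : WEB_stmt) : SPL_stmt := by
  intro G _ _ p hp H₁ H₂ hD hdvd w hw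
  obtain ⟨hc, hint⟩ := hD
  have hsum : ∑ g ∈ FS (fun g : G => g ∈ H₁ ⊔ H₂), w g * (Ls p (H₁ ⊔ H₂) g : ℂ) =
      ∑ x ∈ FS (fun g : G => g ∈ H₁) ×ˢ FS (fun g : G => g ∈ H₂),
        w (x.1 * x.2) * (Ls p (H₁ ⊔ H₂) (x.1 * x.2) : ℂ) := by
    symm
    refine Finset.sum_bij (fun x _ => x.1 * x.2) ?_ ?_ ?_ ?_
    · rintro ⟨a, b⟩ hx
      rw [Finset.mem_product, mem_FS, mem_FS] at hx
      rw [mem_FS]
      exact mul_mem (Subgroup.mem_sup_left hx.1) (Subgroup.mem_sup_right hx.2)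
    · rintro ⟨a, b⟩ hx ⟨a', b'⟩ hx' h
      rw [Finset.mem_product, mem_FS, mem_FS] at hx hx'
      simp only at h hx hx'
      have h1 : a'⁻¹ * a = b' * b⁻¹ := by
        rw [inv_mul_eq_iff_eq_mul, ← mul_assoc, ← h, mul_assoc, mul_inv_cancel, mul_one]
      have h2 : a'⁻¹ * a ∈ H₁ ⊓ H₂ :=
        ⟨H₁.mul_mem (H₁.inv_mem hx'.1) hx.1, by
          rw [h1]; exact H₂.mul_mem hx'.2 (H₂.inv_mem hx.2)⟩
      rw [hint, Subgroup.mem_bot] at h2
      have h3 : a = a' := by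
        rw [inv_mul_eq_one] at h2
        exact h2.symm
      subst h3
      have h4 : b = b' := mul_left_cancel h
      rw [h4]
    · intro g hg
      rw [mem_FS] at hg
      obtain ⟨a, ha, b, hb, rfl⟩ := SPL_mem hc hg
      refine ⟨(a, b), ?_, rfl⟩
      rw [Finset.mem_product, mem_FS, mem_FS]
      exact ⟨ha, hb⟩
    · rintro ⟨a, b⟩ _
      rfl
  rw [hsum, Finset.sum_product_right]
  refine Finset.sum_eq_zero fun b hb => ?_
  rw [mem_FS] at hb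
  have h1 : ∀ a ∈ FS (fun g : G => g ∈ H₁), w (a * b) * (Ls p (H₁ ⊔ H₂) (a * b) : ℂ) =
      (-(w b * (Ls p H₂ b : ℂ))) * (Ls p H₁ a : ℂ) := by
    intro a ha
    rw [mem_FS] at ha
    rw [hw a ha b hb, hPRO G p H₁ H₂ ⟨hc, hint⟩ a ha b hb]
    push_cast
    ring
  rw [Finset.sum_congr rfl h1, ← Finset.mul_sum]
  have h2 : ∑ a ∈ FS (fun g : G => g ∈ H₁), (Ls p H₁ a : ℂ) = 0 := by
    have h3 := hWEB G p hp H₁ hdvd
    exact_mod_cast congrArg (Int.cast : ℤ → ℂ) h3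
  rw [h2, mul_zero]

end LEQ
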